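import Pool.Agent.Helper71.BM.Basic

set_option autoImplicit false

/-! # KWEB: a web in a clique of connected sets -/

namespace Pool.Agent.Helper71.BM

open Finset ErdPos

theorem kweb_conn_union {V : Type} [DecidableEq V] {G : SimpleGraph V} (B : ℕ → Finset V) :
    ∀ n : ℕ, 1 ≤ n → (∀ a < n, Conn G (B a)) → (∀ a, a + 1 < n → (B a ∩ B (a + 1)).Nonempty) →
      Conn G ((range n).biUnion B) := by
  intro n
  induction n with
  | zero => intro h; omega
  | succ n ih =>
    intro _ h1 h2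
    rcases Nat.eq_zero_or_pos n with rfl | hn
    · simpa using h1 0 (by omega)
    · have h3 := ih hn (fun a ha => h1 a (by omega)) (fun a ha => h2 a (by omega))
      obtain ⟨v, hv⟩ := h2 (n - 1) (by omega)
      rw [mem_inter, Nat.sub_add_cancel hn] at hv
      rw [range_add_one, biUnion_insert, union_comm]
      exact h3.union_of_mem (h1 n (by omega)) (mem_biUnion.2 ⟨n - 1, mem_range.2 (by omega),
        hv.1⟩) hv.2

theorem kweb_row_succ {V : Type} (R : ℕ → ℕ → List V) (n a : ℕ) :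
    row R (n + 1) a = row R n a ++ R a n := by
  unfold row
  rw [List.range_succ, List.map_append, List.flatten_append]
  simp

theorem kweb_mem_row {V : Type} (R : ℕ → ℕ → List V) (d a : ℕ) (v : V) :
    v ∈ row R d a ↔ ∃ i < d, v ∈ R a i := by
  unfold row
  simp [List.mem_flatten]

theorem kweb_chain {V : Type} {G : SimpleGraph V} (R : ℕ → ℕ → List V) (a d : ℕ)
    (hne : ∀ i < d, R a i ≠ []) (hc : ∀ i < d, (R a i).IsChain G.Adj)
    (hl : ∀ i, i + 1 < d → ∀ x ∈ (R a i).getLast?, ∀ y ∈ (R a (i + 1)).head?, G.Adj x y) :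
    ∀ n, n ≤ d → (row R n a).IsChain G.Adj := by
  intro n
  induction n with
  | zero => intro _; simp [row]
  | succ n ih =>
    intro hn
    rw [kweb_row_succ, List.isChain_append]
    refine ⟨ih (by omega), hc n (by omega), ?_⟩
    intro x hx y hy
    rcases Nat.eq_zero_or_pos n with rfl | hn0
    · simp [row] at hx
    · obtain ⟨k, rfl⟩ : ∃ k, n = k + 1 := ⟨n - 1, by omega⟩
      rw [kweb_row_succ, List.getLast?_append_of_ne_nil _ (hne k (by omega))] at hx
      exact hl k (by omega) x hx y hy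

theorem kweb_nodup {V : Type} (R : ℕ → ℕ → List V) (a d : ℕ) (hn : ∀ i < d, (R a i).Nodup)
    (hd : ∀ i < d, ∀ j < d, i ≠ j → List.Disjoint (R a i) (R a j)) :
    ∀ n, n ≤ d → (row R n a).Nodup := by
  intro n
  induction n with
  | zero => intro _; simp [row]
  | succ n ih =>
    intro hnd
    rw [kweb_row_succ, List.nodup_append]
    refine ⟨ih (by omega), hn n (by omega), ?_⟩
    intro x hx y hy hxy
    obtain ⟨i, hi, hxi⟩ := (kweb_mem_row R n a x).1 hx
    exact hd i (by omega) n (by omega) (by omega) hxi (hxy ▸ hy)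

theorem kweb_inj {d a b i j : ℕ} (hi : i < d) (hj : j < d) (h : a * d + i = b * d + j) :
    a = b ∧ i = j := by
  have h1 : (a * d + i) / d = a := by
    rw [add_comm, Nat.add_mul_div_right _ _ (by omega), Nat.div_eq_of_lt hi, zero_add]
  have h2 : (b * d + j) / d = b := by
    rw [add_comm, Nat.add_mul_div_right _ _ (by omega), Nat.div_eq_of_lt hj, zero_add]
  have h3 : a = b := by rw [← h1, ← h2, h]
  subst h3
  exact ⟨rfl, by omega⟩

theorem kweb_lt {d a h i : ℕ} (ha : a < h) (hi : i < d) : a * d + i < h * d := by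
  have : (a + 1) * d ≤ h * d := Nat.mul_le_mul_right d ha
  have h2 : (a + 1) * d = a * d + d := by ring
  omega

theorem st_KWEB : ST_KWEB := by
  intro V _ _ G h d C A P hh hd hA hAd hP hPd
  classical
  -- data of the connecting paths
  have hex : ∀ x y, ∃ (e f : V) (m : List V), x < y → y < h * d →
      e ∈ A x ∧ f ∈ A y ∧ P x y = e :: m ++ [f] ∧ PL G e f (e :: m ++ [f]) ∧ ∀ v ∈ m, v ∈ C := by
    intro x y
    by_cases hxy : x < y ∧ y < h * d
    · obtain ⟨a, ha, b, hb, hl, hv⟩ := hP x y hxy.1 hxy.2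
      have hab : a ≠ b := by
        rintro rfl
        exact Finset.disjoint_left.1 (hAd x (hxy.1.trans hxy.2) y hxy.2 hxy.1.ne) ha hb
      obtain ⟨m, hm⟩ := hl.eq_both hab
      rw [hm] at hl hv
      refine ⟨a, b, m, fun _ _ => ⟨ha, hb, hm, hl, fun v hvm => ?_⟩⟩
      have hnd := hl.2.2.1
      rcases hv v (by simp [hvm]) with rfl | rfl | h1
      · simp [hvm] at hnd
      · rw [List.nodup_append] at hnd
        exact absurd rfl (hnd.2.2 v (by simp [hvm]) v (by simp))
      · exact h1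
    · obtain ⟨z, -⟩ := (hA 0 (Nat.mul_pos hh hd)).1.1
      exact ⟨z, z, [], fun h1 h2 => absurd ⟨h1, h2⟩ hxy⟩
  choose e f m hef using hex
  have hbase : ∀ x, ∃ z : V, x < h * d → z ∈ A x := by
    intro x
    by_cases hx : x < h * d
    · obtain ⟨z, hz⟩ := (hA x hx).1.1
      exact ⟨z, fun _ => hz⟩
    · obtain ⟨z, -⟩ := (hA 0 (Nat.mul_pos hh hd)).1.1
      exact ⟨z, fun h1 => absurd h1 hx⟩
  choose z hz using hbase
  -- entrance and exit of a cell
  obtain ⟨inn, hinn⟩ : ∃ inn : ℕ → ℕ → V, ∀ a i, inn a i =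
      if i = 0 then z (a * d + i) else f (a * d + (i - 1)) (a * d + i) := ⟨_, fun _ _ => rfl⟩
  obtain ⟨out, hout⟩ : ∃ out : ℕ → ℕ → V, ∀ a i, out a i =
      if i + 1 < d then e (a * d + i) (a * d + (i + 1)) else z (a * d + i) := ⟨_, fun _ _ => rfl⟩
  have hinnA : ∀ a < h, ∀ i < d, inn a i ∈ A (a * d + i) := by
    intro a ha i hi
    rw [hinn]
    split_ifs with h0
    · exact hz _ (kweb_lt ha hi)
    · exact (hef (a * d + (i - 1)) (a * d + i) (by omega) (kweb_lt ha hi)).2.1
  have houtA : ∀ a < h, ∀ i < d, out a i ∈ A (a * d + i) := by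
    intro a ha i hi
    rw [hout]
    split_ifs with h0
    · exact (hef (a * d + i) (a * d + (i + 1)) (by omega) (kweb_lt ha h0)).1
    · exact hz _ (kweb_lt ha hi)
  have hLex : ∀ a i, ∃ L : List V, a < h → i < d → PL G (inn a i) (out a i) L ∧
      ∀ v ∈ L, v ∈ A (a * d + i) := by
    intro a i
    by_cases hai : a < h ∧ i < d
    · obtain ⟨L, hL1, hL2⟩ := exists_PL_of_conn (hA _ (kweb_lt hai.1 hai.2)).1
        (hinnA a hai.1 i hai.2) (houtA a hai.1 i hai.2)
      exact ⟨L, fun _ _ => ⟨hL1, hL2⟩⟩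
    · exact ⟨[], fun h1 h2 => absurd ⟨h1, h2⟩ hai⟩
  choose L hL using hLex
  obtain ⟨R, hR⟩ : ∃ R : ℕ → ℕ → List V, ∀ a i, R a i = L a i ++
      (if i + 1 < d then m (a * d + i) (a * d + (i + 1)) else []) := ⟨_, fun _ _ => rfl⟩
  -- tags
  obtain ⟨T, hT⟩ : ∃ T : ℕ → V → Prop, ∀ x v, T x v ↔
      v ∈ A x ∨ ∃ y, x < y ∧ y < h * d ∧ v ∈ P x y ∧ v ∈ C := ⟨_, fun _ _ => Iff.rfl⟩
  have hTd : ∀ x x' v, x < h * d → x' < h * d → x ≠ x' → T x v → T x' v → False := by
    intro x x' v hx hx' hne h1 h2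
    rw [hT] at h1 h2
    rcases h1 with h1 | ⟨y, hy1, hy2, hy3, hy4⟩ <;> rcases h2 with h2 | ⟨y', hy1', hy2', hy3', hy4'⟩
    · exact Finset.disjoint_left.1 (hAd x hx x' hx' hne) h1 h2
    · exact Finset.disjoint_left.1 (hA x hx).2 h1 hy4'
    · exact Finset.disjoint_left.1 (hA x' hx').2 h2 hy4
    · exact hPd x y x' y' hy1 hy2 hy1' hy2' (fun hc => hne (congrArg Prod.fst hc)) hy3 hy3'
  have hmT : ∀ x y, x < y → y < h * d → ∀ v ∈ m x y, T x v := by
    intro x y hxy hy v hv
    obtain ⟨-, -, h3, -, h5⟩ := hef x y hxy hy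
    rw [hT]
    exact Or.inr ⟨y, hxy, hy, by rw [h3]; simp [hv], h5 v hv⟩
  have hRT : ∀ a < h, ∀ i < d, ∀ v ∈ R a i, T (a * d + i) v := by
    intro a ha i hi v hv
    rw [hR, List.mem_append] at hv
    rcases hv with hv | hv
    · rw [hT]
      exact Or.inl ((hL a i ha hi).2 v hv)
    · split_ifs at hv with h0
      · exact hmT _ _ (by omega) (kweb_lt ha h0) v hv
      · simp at hv
  have hRne : ∀ a < h, ∀ i < d, R a i ≠ [] := by
    intro a ha i hi
    rw [hR]
    exact List.append_ne_nil_of_left_ne_nil (hL a i ha hi).1.ne_nil _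
  have hRhead : ∀ a < h, ∀ i < d, (R a i).head? = some (inn a i) := by
    intro a ha i hi
    rw [hR, List.head?_append, (hL a i ha hi).1.1]
    rfl
  have hRmem : ∀ a < h, ∀ i < d, inn a i ∈ R a i := by
    intro a ha i hi
    rw [hR]
    exact List.mem_append_left _ (hL a i ha hi).1.head_mem
  -- the block with the next entrance is a path
  have hblock : ∀ a < h, ∀ i, i + 1 < d → PL G (inn a i) (inn a (i + 1)) (R a i ++ [inn a (i + 1)]) := by
    intro a ha i hi
    obtain ⟨h1, h2, h3, h4, h5⟩ := hef (a * d + i) (a * d + (i + 1)) (by omega) (kweb_lt ha hi)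
    have ho : out a i = e (a * d + i) (a * d + (i + 1)) := by rw [hout, if_pos hi]
    have hin : inn a (i + 1) = f (a * d + i) (a * d + (i + 1)) := by
      rw [hinn, if_neg (by omega), Nat.add_sub_cancel]
    obtain ⟨hL1, hL2⟩ := hL a i ha (by omega)
    rw [hR, if_pos hi, hin]
    rw [ho] at hL1
    obtain ⟨L', hL'⟩ := hL1.eq_concat
    have hlt1 : a * d + i < h * d := kweb_lt ha (by omega)
    have hlt2 : a * d + (i + 1) < h * d := kweb_lt ha hi
    have hfnot : f (a * d + i) (a * d + (i + 1)) ∉ L a i := fun hmem =>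
      Finset.disjoint_left.1 (hAd _ hlt1 _ hlt2 (by omega)) (hL2 _ hmem) h2
    have hmnot : ∀ v ∈ m (a * d + i) (a * d + (i + 1)), v ∉ L a i := fun v hv hmem =>
      Finset.disjoint_left.1 (hA _ hlt1).2 (hL2 _ hmem) (h5 v hv)
    refine ⟨?_, ?_, ?_, ?_⟩
    · rw [List.append_assoc, List.head?_append, hL1.1]
      rfl
    · simp
    · have hnd := h4.2.2.1
      rw [List.append_assoc, List.nodup_append]
      refine ⟨hL1.2.2.1, ?_, ?_⟩
      · rw [List.cons_append] at hnd
        exact (List.nodup_cons.1 hnd).2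
      · intro x hx y hy hxy
        subst hxy
        rcases List.mem_append.1 hy with hy | hy
        · exact hmnot x hy hx
        · rw [List.mem_singleton] at hy
          exact hfnot (hy ▸ hx)
    · have hc := h4.2.2.2
      have hLc := hL1.2.2.2
      rw [List.cons_append] at hc
      rw [hL'] at hLc ⊢
      rw [List.append_assoc, List.append_assoc, List.singleton_append]
      rw [List.isChain_append] at hLc ⊢
      refine ⟨hLc.1, hc, ?_⟩
      intro x hx y hy
      exact hLc.2.2 x hx y (by simpa using hy)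
  have hRchain : ∀ a < h, ∀ i < d, (R a i).IsChain G.Adj := by
    intro a ha i hi
    by_cases h0 : i + 1 < d
    · have := (hblock a ha i h0).2.2.2
      exact this.left_of_append
    · rw [hR, if_neg h0, List.append_nil]
      exact (hL a i ha hi).1.2.2.2
  have hRnodup : ∀ a < h, ∀ i < d, (R a i).Nodup := by
    intro a ha i hi
    by_cases h0 : i + 1 < d
    · have := (hblock a ha i h0).2.2.1
      exact (List.nodup_append.1 this).1
    · rw [hR, if_neg h0, List.append_nil]
      exact (hL a i ha hi).1.2.2.1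
  have hRd : ∀ a < h, ∀ b < h, ∀ i < d, ∀ j < d, (a, i) ≠ (b, j) →
      List.Disjoint (R a i) (R b j) := by
    intro a ha b hb i hi j hj hne v hv hv'
    refine hTd (a * d + i) (b * d + j) v (kweb_lt ha hi) (kweb_lt hb hj) (fun heq => ?_)
      (hRT a ha i hi v hv) (hRT b hb j hj v hv')
    obtain ⟨h1, h2⟩ := kweb_inj hi hj heq
    exact hne (by rw [h1, h2])
  -- regions
  obtain ⟨Bk, hBk⟩ : ∃ Bk : ℕ → ℕ → Finset V, ∀ i a, Bk i a = A (a * d + i) ∪ (R a i).toFinset ∪
      (if a + 1 < h then (P (a * d + i) ((a + 1) * d + i)).toFinset else ∅) :=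
    ⟨_, fun _ _ => rfl⟩
  have hstep : ∀ a i, a * d + i < (a + 1) * d + i := fun a i => by
    have : (a + 1) * d = a * d + d := by ring
    omega
  have hBkc : ∀ i < d, ∀ a < h, Conn G (Bk i a) := by
    intro i hi a ha
    rw [hBk]
    have h1 : Conn G (A (a * d + i) ∪ (R a i).toFinset) :=
      (hA _ (kweb_lt ha hi)).1.union_of_mem (conn_of_chain (hRne a ha i hi) (hRchain a ha i hi))
        (hinnA a ha i hi) (List.mem_toFinset.2 (hRmem a ha i hi))
    split_ifs with h0
    · obtain ⟨g1, g2, g3, g4, g5⟩ := hef (a * d + i) ((a + 1) * d + i) (hstep a i) (kweb_lt h0 hi)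
      refine h1.union_of_mem (x := e (a * d + i) ((a + 1) * d + i)) ?_
        (mem_union_left _ g1) ?_
      · rw [g3]
        exact g4.conn
      · rw [g3]
        exact List.mem_toFinset.2 (by simp)
    · rwa [union_empty]
  have hBkT : ∀ i < d, ∀ a < h, ∀ v ∈ Bk i a, ∃ b < h, T (b * d + i) v := by
    intro i hi a ha v hv
    rw [hBk] at hv
    rcases mem_union.1 hv with hv | hv
    · rcases mem_union.1 hv with hv | hv
      · exact ⟨a, ha, (hT _ _).2 (Or.inl hv)⟩
      · exact ⟨a, ha, hRT a ha i hi v (List.mem_toFinset.1 hv)⟩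
    · split_ifs at hv with h0
      · obtain ⟨g1, g2, g3, g4, g5⟩ := hef (a * d + i) ((a + 1) * d + i) (hstep a i)
          (kweb_lt h0 hi)
        rw [g3, List.mem_toFinset, List.cons_append, List.mem_cons, List.mem_append,
          List.mem_singleton] at hv
        rcases hv with rfl | hv | rfl
        · exact ⟨a, ha, (hT _ _).2 (Or.inl g1)⟩
        · exact ⟨a, ha, hmT _ _ (hstep a i) (kweb_lt h0 hi) v hv⟩
        · exact ⟨a + 1, h0, (hT _ _).2 (Or.inl g2)⟩
      · simp at hv
  refine ⟨R, fun i => (range h).biUnion (Bk i), ⟨hRne, ?_, ?_, ?_, ?_, ?_, ?_⟩, ?_⟩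
  · intro a ha
    exact kweb_nodup R a d (hRnodup a ha) (fun i hi j hj hij => hRd a ha a ha i hi j hj
      (fun hc => hij (congrArg Prod.snd hc))) d le_rfl
  · intro a ha
    refine kweb_chain R a d (hRne a ha) (hRchain a ha) ?_ d le_rfl
    intro i hi x hx y hy
    rw [hRhead a ha (i + 1) hi] at hy
    have h1 := (hblock a ha i hi).2.2.2
    rw [List.isChain_append] at h1
    exact h1.2.2 x hx y (by simpa using hy)
  · intro a ha b hb hab v hv hv'
    obtain ⟨i, hi, hvi⟩ := (kweb_mem_row R d a v).1 hv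
    obtain ⟨j, hj, hvj⟩ := (kweb_mem_row R d b v).1 hv'
    exact hRd a ha b hb i hi j hj (fun hc => hab (congrArg Prod.fst hc)) hvi hvj
  · intro a ha i hi v hv
    refine mem_biUnion.2 ⟨a, mem_range.2 ha, ?_⟩
    rw [hBk]
    exact mem_union_left _ (mem_union_right _ (List.mem_toFinset.2 hv))
  · intro i hi
    refine kweb_conn_union (Bk i) h hh (hBkc i hi) (fun a ha => ?_)
    obtain ⟨g1, g2, g3, g4, g5⟩ := hef (a * d + i) ((a + 1) * d + i) (hstep a i)
      (kweb_lt ha hi)
    refine ⟨f (a * d + i) ((a + 1) * d + i), mem_inter.2 ⟨?_, ?_⟩⟩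
    · rw [hBk, if_pos ha, g3]
      exact mem_union_right _ (List.mem_toFinset.2 (by simp))
    · rw [hBk]
      exact mem_union_left _ (mem_union_left _ g2)
  · intro i hi j hj hij
    rw [Finset.disjoint_left]
    intro v hv hv'
    obtain ⟨a, ha, hva⟩ := mem_biUnion.1 hv
    obtain ⟨b, hb, hvb⟩ := mem_biUnion.1 hv'
    obtain ⟨a', ha', hT1⟩ := hBkT i hi a (mem_range.1 ha) v hva
    obtain ⟨b', hb', hT2⟩ := hBkT j hj b (mem_range.1 hb) v hvb
    exact hTd _ _ v (kweb_lt ha' hi) (kweb_lt hb' hj) (fun heq => hij (kweb_inj hi hj heq).2)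
      hT1 hT2
  · intro a ha i hi
    exact ⟨inn a i, (kweb_mem_row R d a _).2 ⟨i, hi, hRmem a ha i hi⟩, hinnA a ha i hi⟩

end Pool.Agent.Helper71.BM
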