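import Pool.Agent.Helper71.BM.Basic
import Pool.Agent.Helper46.EP.MENW

set_option autoImplicit false

/-! # MLP: Menger's theorem for lists -/

namespace Pool.Agent.Helper71.BM

open Finset ErdPos

/-- a chain from `U` to the complement has a step leaving `U` -/
theorem mlp_leave {V : Type} {G : SimpleGraph V} {U : V → Prop} :
    ∀ {l : List V} {a b : V}, l.head? = some a → l.getLast? = some b → l.IsChain G.Adj → U a →
      ¬ U b → ∃ x ∈ l, ∃ y ∈ l, U x ∧ ¬ U y ∧ G.Adj x y := by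
  intro l
  induction l with
  | nil => intro a b h; simp at h
  | cons c l ih =>
    intro a b h1 h2 h3 ha hb
    simp only [List.head?_cons, Option.some.injEq] at h1
    subst h1
    cases l with
    | nil =>
      simp only [List.getLast?_singleton, Option.some.injEq] at h2
      rw [h2] at ha
      exact absurd ha hb
    | cons d l =>
      rw [List.isChain_cons_cons] at h3
      by_cases hd : U d
      · have h4 : (d :: l).getLast? = some b := by rwa [List.getLast?_cons_cons] at h2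
        obtain ⟨x, hx, y, hy, h⟩ := ih (a := d) rfl h4 h3.2 hd hb
        exact ⟨x, List.mem_cons_of_mem _ hx, y, List.mem_cons_of_mem _ hy, h⟩
      · exact ⟨c, by simp, d, by simp, ha, hd, h3.1⟩

theorem st_MLP : ST_MLP := by
  intro V _ _ G K A B n h
  obtain ⟨L, hL, hd⟩ := ErdPos.st_MENW V G K (A ∩ K) (B ∩ K) n inter_subset_right
    inter_subset_right (by
      intro U hU hUB
      by_contra hcon
      push Not at hcon
      obtain ⟨a, ha, b, hb, l, hl, hlK⟩ := h _ hcon
      have haU : a ∈ U := by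
        by_contra hU'
        exact (hlK a hl.head_mem).2 (mem_union_right _ (mem_sdiff.2
          ⟨mem_inter.2 ⟨ha, (hlK a hl.head_mem).1⟩, hU'⟩))
      have hbU : b ∉ U := fun hbU =>
        Finset.disjoint_left.1 hUB hbU (mem_inter.2 ⟨hb, (hlK b hl.last_mem).1⟩)
      obtain ⟨x, hx, y, hy, hxU, hyU, hxy⟩ := mlp_leave (U := fun v => v ∈ U) hl.1 hl.2.1
        hl.2.2.2 haU hbU
      exact (hlK y hy).2 (mem_union_left _ (mem_Nb.2 ⟨(hlK y hy).1, hyU, x, hxU, hxy.symm⟩)))
  have hex : ∀ i, ∃ l : List V, (∀ v ∈ l, v ∈ L i) ∧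
      ∃ a ∈ A, ∃ b ∈ B, PL G a b l ∧ (∀ v ∈ l, v ∈ A → v = a) ∧ (∀ v ∈ l, v ∈ B → v = b) := by
    intro i
    obtain ⟨-, h2, ⟨a, ha⟩, ⟨b, hb⟩⟩ := hL i
    rw [mem_inter, mem_inter] at ha hb
    obtain ⟨l, hl, hlL⟩ := exists_PL_of_conn h2 ha.1 hb.1
    obtain ⟨a', b', l', ha', hb', hl', hs, g1, g2⟩ :=
      hl.shorten (A := fun v => v ∈ A) (B := fun v => v ∈ B) ha.2.1 hb.2.1
    exact ⟨l', fun v hv => hlL v (hs v hv), a', ha', b', hb', hl', g1, g2⟩
  choose f hf hP using hex
  refine ⟨List.ofFn f, ⟨?_, ?_⟩, List.length_ofFn⟩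
  · rw [List.nodup_flatten]
    refine ⟨?_, ?_⟩
    · intro l hl
      obtain ⟨i, rfl⟩ := (List.mem_ofFn' f l).1 hl
      obtain ⟨a, _, b, _, h1, _⟩ := hP i
      exact h1.2.2.1
    · rw [List.pairwise_ofFn]
      intro i j hij v hv hv'
      exact Finset.disjoint_left.1 (hd i j hij.ne) (hf i v hv) (hf j v hv')
  · intro l hl
    obtain ⟨i, rfl⟩ := (List.mem_ofFn' f l).1 hl
    exact ⟨fun v hv => (hL i).1 (hf i v hv), hP i⟩

end Pool.Agent.Helper71.BM
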