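import Pool.Agent.Helper71.BM.Basic

set_option autoImplicit false

/-! # PIEC: joining the rows inside a region -/

namespace Pool.Agent.Helper71.BM

open Finset ErdPos

theorem piec_mem_row {V : Type} (R : ℕ → ℕ → List V) (d a : ℕ) (v : V) :
    v ∈ row R d a ↔ ∃ i < d, v ∈ R a i := by
  unfold row
  simp [List.mem_flatten]

theorem st_PIEC : ST_PIEC := by
  intro V _ G h d R U hW i hi I hne hI hIne
  have hcol : ∀ c < h, ∀ v ∈ U i, v ∈ row R d c → v ∈ R c i := by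
    intro c hc v hv hvr
    obtain ⟨j, hj, hvj⟩ := (piec_mem_row R d c v).1 hvr
    by_cases hij : i = j
    · rw [hij]
      exact hvj
    · exact absurd (hW.mem c hc j hj v hvj) (Finset.disjoint_left.1 (hW.udj i hi j hj hij) hv)
  have hd : Disjoint (I.biUnion (fun a => (R a i).toFinset))
      ((range h \ I).biUnion (fun a => (R a i).toFinset)) := by
    rw [Finset.disjoint_left]
    intro v hv hv'
    obtain ⟨a, ha, hva⟩ := mem_biUnion.1 hv
    obtain ⟨b, hb, hvb⟩ := mem_biUnion.1 hv'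
    rw [mem_sdiff] at hb
    refine hW.dj a (mem_range.1 (hI ha)) b (mem_range.1 hb.1) (fun h => hb.2 (h ▸ ha))
      ((piec_mem_row R d a v).2 ⟨i, hi, List.mem_toFinset.1 hva⟩)
      ((piec_mem_row R d b v).2 ⟨i, hi, List.mem_toFinset.1 hvb⟩)
  have hmeet : ∀ J : Finset ℕ, J.Nonempty → J ⊆ range h →
      (J.biUnion (fun a => (R a i).toFinset) ∩ U i).Nonempty := by
    intro J ⟨a, ha⟩ hJ
    obtain ⟨v, hv⟩ := List.exists_mem_of_ne_nil _ (hW.ne a (mem_range.1 (hJ ha)) i hi)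
    exact ⟨v, mem_inter.2 ⟨mem_biUnion.2 ⟨a, ha, List.mem_toFinset.2 hv⟩,
      hW.mem a (mem_range.1 (hJ ha)) i hi v hv⟩⟩
  have hne2 : (range h \ I).Nonempty := by
    rw [sdiff_nonempty]
    exact fun hs => hIne (subset_antisymm hI hs)
  obtain ⟨x, hx, y, hy, l, hl, -, -, hv⟩ := exists_PL_between (hW.conn i hi) (hmeet I hne hI)
    (hmeet _ hne2 sdiff_subset) hd
  obtain ⟨a, ha, hxa⟩ := mem_biUnion.1 hx
  obtain ⟨b, hb, hyb⟩ := mem_biUnion.1 hy
  rw [mem_sdiff] at hb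
  refine ⟨a, ha, b, hb.1, hb.2, x, List.mem_toFinset.1 hxa, y, List.mem_toFinset.1 hyb, l, hl,
    fun v hvl => (hv v hvl).1, fun v hvl c hc hvc => ?_⟩
  obtain ⟨h1, h2, h3⟩ := hv v hvl
  have h4 := hcol c hc v h1 hvc
  by_cases hcI : c ∈ I
  · exact h2 (mem_biUnion.2 ⟨c, hcI, List.mem_toFinset.2 h4⟩)
  · exact h3 (mem_biUnion.2 ⟨c, mem_sdiff.2 ⟨mem_range.2 hc, hcI⟩, List.mem_toFinset.2 h4⟩)

end Pool.Agent.Helper71.BM
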