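import Pool.Agent.Helper71.BM.Basic

set_option autoImplicit false

/-! # PST: a large connected graph contains a long path or a large star -/

namespace Pool.Agent.Helper71.BM

open Finset ErdPos

open Classical in
/-- neighbours different from the vertex -/
noncomputable def pst_N (T : ℕ → ℕ → Prop) (h a : ℕ) : Finset ℕ :=
  (range h).filter (fun b => T a b ∧ b ≠ a)

/-- balls -/
noncomputable def pst_B (T : ℕ → ℕ → Prop) (h : ℕ) : ℕ → Finset ℕ
  | 0 => {0}
  | i + 1 => pst_B T h i ∪ (pst_B T h i).biUnion (pst_N T h)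

theorem pst_mono (T : ℕ → ℕ → Prop) (h : ℕ) {i j : ℕ} (hij : i ≤ j) :
    pst_B T h i ⊆ pst_B T h j := by
  induction j, hij using Nat.le_induction with
  | base => exact subset_rfl
  | succ j _ ih => exact ih.trans subset_union_left

theorem pst_sub (T : ℕ → ℕ → Prop) {h : ℕ} (hh : 0 < h) (i : ℕ) : pst_B T h i ⊆ range h := by
  induction i with
  | zero =>
    intro x hx
    have : x = 0 := by simpa [pst_B] using hx
    rw [this]
    exact mem_range.2 hh
  | succ i ih =>
    intro x hx
    rcases mem_union.1 hx with hx | hx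
    · exact ih hx
    · obtain ⟨a, _, ha⟩ := mem_biUnion.1 hx
      classical
      exact (mem_filter.1 ha).1

theorem pst_zero (T : ℕ → ℕ → Prop) (h i : ℕ) : 0 ∈ pst_B T h i :=
  pst_mono T h (Nat.zero_le i) (by simp [pst_B])

theorem pst_card (T : ℕ → ℕ → Prop) {h r : ℕ} (hN : ∀ a < h, (pst_N T h a).card ≤ r)
    (hh : 0 < h) (i : ℕ) : (pst_B T h i).card ≤ (1 + r) ^ i := by
  induction i with
  | zero => simp [pst_B]
  | succ i ih =>
    have h1 : ((pst_B T h i).biUnion (pst_N T h)).card ≤ (pst_B T h i).card * r :=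
      card_biUnion_le_card_mul _ _ _ fun a ha => hN a (mem_range.1 (pst_sub T hh i ha))
    have h2 := card_union_le (pst_B T h i) ((pst_B T h i).biUnion (pst_N T h))
    calc (pst_B T h (i + 1)).card ≤ (pst_B T h i).card + (pst_B T h i).card * r := by
          exact h2.trans (by omega)
      _ = (pst_B T h i).card * (1 + r) := by ring
      _ ≤ (1 + r) ^ i * (1 + r) := Nat.mul_le_mul_right _ ih
      _ = (1 + r) ^ (i + 1) := by ring

theorem pst_path (T : ℕ → ℕ → Prop) (h : ℕ) : ∀ (j b : ℕ), b ∈ pst_B T h j →
    (∀ i < j, b ∉ pst_B T h i) → ∃ g : ℕ → ℕ, g j = b ∧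
      (∀ i ≤ j, g i ∈ pst_B T h i ∧ ∀ i' < i, g i ∉ pst_B T h i') ∧
      ∀ i < j, T (g i) (g (i + 1)) := by
  intro j
  induction j with
  | zero =>
    intro b hb _
    refine ⟨fun _ => b, rfl, fun i hi => ?_, fun i hi => absurd hi (by omega)⟩
    obtain rfl : i = 0 := by omega
    exact ⟨hb, fun i' hi' => absurd hi' (by omega)⟩
  | succ j ih =>
    intro b hb hb'
    rcases mem_union.1 hb with h1 | h1
    · exact absurd h1 (hb' j (by omega))
    · obtain ⟨a, ha, hab⟩ := mem_biUnion.1 h1
      classical
      have hab' := (mem_filter.1 hab)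
      obtain ⟨g, g1, g2, g3⟩ := ih a ha (by
        intro i hi hai
        refine hb' (i + 1) (by omega) (mem_union_right _ (mem_biUnion.2 ⟨a, hai, hab⟩)))
      refine ⟨fun i => if i = j + 1 then b else g i, by simp, ?_, ?_⟩
      · intro i hi
        by_cases hij : i = j + 1
        · subst hij
          simp only [if_true]
          exact ⟨hb, hb'⟩
        · simp only [hij, if_false]
          exact g2 i (by omega)
      · intro i hi
        have hij : i ≠ j + 1 := by omega
        by_cases hij2 : i = j
        · subst hij2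
          simp only [hij, if_false, if_true]
          rw [g1]
          exact hab'.2.1
        · have h3 : i + 1 ≠ j + 1 := by omega
          simp only [hij, h3, if_false]
          exact g3 i (by omega)

theorem st_PST : ST_PST := by
  intro r
  refine ⟨(1 + r) ^ r + 1, fun T hsym hconn => ?_⟩
  classical
  set h := (1 + r) ^ r + 1 with hh
  have h0 : 0 < h := by omega
  by_cases hN : ∀ a < h, (pst_N T h a).card ≤ r
  · left
    have hstep : ∀ j, j ≤ r → ∃ b ∈ pst_B T h j, ∀ i < j, b ∉ pst_B T h i := by
      intro j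
      induction j with
      | zero => exact fun _ => ⟨0, pst_zero T h 0, fun i hi => absurd hi (by omega)⟩
      | succ j ih =>
        intro hj
        have hc := pst_card T hN h0 j
        have hle : (1 + r) ^ j ≤ (1 + r) ^ r := Nat.pow_le_pow_right (by omega) (by omega)
        obtain ⟨a, ha, b, hb, hbB, hab⟩ := hconn (pst_B T h j) ⟨0, pst_zero T h j⟩
          (pst_sub T h0 j) (by
            intro heq
            have := congrArg Finset.card heq
            rw [card_range] at this
            omega)
        refine ⟨b, mem_union_right _ (mem_biUnion.2 ⟨a, ha, mem_filter.2 ⟨hb, hab, ?_⟩⟩), ?_⟩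
        · rintro rfl
          exact hbB ha
        · intro i hi hbi
          exact hbB (pst_mono T h (by omega) hbi)
    obtain ⟨b, hb, hb'⟩ := hstep r le_rfl
    obtain ⟨g, -, g2, g3⟩ := pst_path T h r b hb hb'
    refine ⟨g, fun i hi => mem_range.1 (pst_sub T h0 i (g2 i hi.le).1), ?_, fun i hi =>
      g3 i (by omega)⟩
    intro i hi j hj hij
    by_contra hne
    rcases lt_or_gt_of_ne hne with h1 | h1
    · exact (g2 j hj.le).2 i h1 (hij ▸ (g2 i hi.le).1)
    · exact (g2 i hi.le).2 j h1 (hij ▸ (g2 j hj.le).1)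
  · right
    push Not at hN
    obtain ⟨c, hc, hcr⟩ := hN
    obtain ⟨S, hS, hSc⟩ := exists_subset_card_eq hcr.le
    refine ⟨c, hc, fun i => if hi : i < r then S.orderEmbOfFin hSc ⟨i, hi⟩ else 0, ?_, ?_, ?_⟩
    · intro i hi
      have h1 := (mem_filter.1 (hS (S.orderEmbOfFin_mem hSc ⟨i, hi⟩)))
      simp only [hi, dif_pos]
      exact ⟨mem_range.1 h1.1, h1.2.2⟩
    · intro i hi j hj hij
      simp only [hi, hj, dif_pos] at hij
      have := (S.orderEmbOfFin hSc).injective hij
      exact congrArg Fin.val this
    · intro i hi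
      have h1 := (mem_filter.1 (hS (S.orderEmbOfFin_mem hSc ⟨i, hi⟩)))
      simp only [hi, dif_pos]
      exact h1.2.1

end Pool.Agent.Helper71.BM
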