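import Pool.Agent.Helper71.BM.Basic

set_option autoImplicit false

/-! # SURG: new ears from core pieces and disjoint paths to the terminals -/

namespace Pool.Agent.Helper71.BM

open Finset ErdPos

theorem surg_len {V : Type} (ρ : V → List V) (T : List (Tr V)) :
    (T.map (fun τ => (ρ τ.a).reverse ++ τ.c ++ ρ τ.b)).flatten.length =
      (T.map Tr.c).flatten.length + ((T.flatMap (fun τ => [τ.a, τ.b])).map ρ).flatten.length := by
  induction T with
  | nil => simp
  | cons τ T ih =>
    simp only [List.map_cons, List.flatten_cons, List.length_append, List.length_reverse,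
      List.flatMap_cons, List.map_append, List.flatten_append, List.map_nil,
      List.flatten_nil, List.length_nil] at ih ⊢
    omega

theorem surg_low {V : Type} (ρ : V → List V) (T : List (Tr V))
    (h : ∀ v ∈ T.flatMap (fun τ => [τ.a, τ.b]), ρ v ≠ []) :
    2 * T.length ≤ ((T.flatMap (fun τ => [τ.a, τ.b])).map ρ).flatten.length := by
  induction T with
  | nil => simp
  | cons τ T ih =>
    have h1 := ih fun v hv => h v (by rw [List.flatMap_cons]; exact List.mem_append_right _ hv)
    have h2 := List.length_pos_of_ne_nil (h τ.a (by simp))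
    have h3 := List.length_pos_of_ne_nil (h τ.b (by simp))
    simp only [List.map_cons, List.flatten_cons, List.length_append, List.length_cons,
      List.flatMap_cons, List.map_append, List.flatten_append, List.map_nil,
      List.flatten_nil, List.length_nil] at h1 ⊢
    omega

theorem st_SURG : ST_SURG := by
  intro V _ _ G q W t K R T htinj hR hKW hnd hcn hT
  classical
  obtain ⟨src, hsrc⟩ : ∃ src : List V, src = T.flatMap (fun τ => [τ.a, τ.b]) := ⟨_, rfl⟩
  rw [← hsrc] at hnd
  have hmem : ∀ τ ∈ T, τ.a ∈ src ∧ τ.b ∈ src := by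
    intro τ hτ
    rw [hsrc]
    exact ⟨List.mem_flatMap.2 ⟨τ, hτ, by simp⟩, List.mem_flatMap.2 ⟨τ, hτ, by simp⟩⟩
  have hsrcR : ∀ v ∈ src, ∃ r ∈ R, r.head? = some v := by
    intro v hv
    rw [hsrc] at hv
    obtain ⟨τ, hτ, hv⟩ := List.mem_flatMap.1 hv
    simp only [List.mem_cons, List.not_mem_nil, or_false] at hv
    rcases hv with rfl | rfl
    · exact (hT τ hτ).2.2.2.1
    · exact (hT τ hτ).2.2.2.2
  have hex : ∀ v, ∃ r : List V, v ∈ src → r ∈ R ∧ r.head? = some v := by
    intro v
    by_cases hv : v ∈ src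
    · obtain ⟨r, hr, h⟩ := hsrcR v hv
      exact ⟨r, fun _ => ⟨hr, h⟩⟩
    · exact ⟨[], fun h => absurd h hv⟩
  choose ρ hρ using hex
  have hend : ∀ v, ∃ i, v ∈ src → i < q ∧ PL G v (t i) (ρ v) ∧ (∀ x ∈ ρ v, x ∈ K) ∧
      ∀ x ∈ ρ v, x ∈ Tm q t → x = t i := by
    intro v
    by_cases hv : v ∈ src
    · obtain ⟨hr, hh⟩ := hρ v hv
      obtain ⟨h1, a, b, hb, h2, h3⟩ := hR.2 _ hr
      obtain ⟨i, hi, hit⟩ := mem_Tm.1 hb
      have ha : a = v := by
        have := h2.1
        rw [hh] at this
        exact (Option.some.inj this).symm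
      subst ha
      subst hit
      exact ⟨i, fun _ => ⟨hi, h2, h1, h3⟩⟩
    · exact ⟨0, fun h => absurd h hv⟩
  choose ι hι using hend
  have hdis : ∀ v ∈ src, ∀ v' ∈ src, v ≠ v' → List.Disjoint (ρ v) (ρ v') := by
    intro v hv v' hv' hne x hx hx'
    have h1 := eq_of_mem_flatten hR.1 (hρ v hv).1 (hρ v' hv').1 hx hx'
    have h2 := (hρ v hv).2
    rw [h1, (hρ v' hv').2] at h2
    exact hne (Option.some.inj h2).symm
  have hab : ∀ τ ∈ T, τ.a ≠ τ.b := by
    intro τ hτ
    rw [hsrc, List.nodup_flatMap] at hnd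
    have := hnd.1 τ hτ
    simpa using this
  have hcK : ∀ τ ∈ T, ∀ v ∈ τ.c, v ∉ K := fun τ hτ v hv => ((hT τ hτ).2.2.1 v hv).1
  have hear : ∀ τ ∈ T, Ear G q W t (ι τ.a) (ι τ.b) ((ρ τ.a).reverse ++ τ.c ++ ρ τ.b) := by
    intro τ hτ
    obtain ⟨ha, hb⟩ := hmem τ hτ
    obtain ⟨i1, i2, i3, i4⟩ := hι τ.a ha
    obtain ⟨j1, j2, j3, j4⟩ := hι τ.b hb
    obtain ⟨c1, c2, c3, -, -⟩ := hT τ hτ
    have hdab := hdis τ.a ha τ.b hb (hab τ hτ)
    have hcnd : τ.c.Nodup := nodup_of_mem_flatten hcn (List.mem_map.2 ⟨τ, hτ, rfl⟩)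
    refine ⟨i1, j1, ?_, ⟨?_, ?_, ?_, ?_⟩, ?_, ?_⟩
    · intro h
      exact hdab i2.last_mem (h ▸ j2.last_mem)
    · rw [List.append_assoc, List.head?_append, i2.reverse.1]
      rfl
    · rw [List.getLast?_append, j2.2.1]
      rfl
    · rw [List.nodup_append, List.nodup_append]
      refine ⟨⟨i2.reverse.2.2.1, hcnd, ?_⟩, j2.2.2.1, ?_⟩
      · intro x hx y hy hxy
        subst hxy
        exact hcK τ hτ x hy (i3 x (List.mem_reverse.1 hx))
      · intro x hx y hy hxy
        subst hxy
        rcases List.mem_append.1 hx with hx | hx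
        · exact hdab (List.mem_reverse.1 hx) hy
        · exact hcK τ hτ x hx (j3 x hy)
    · rw [List.append_assoc, List.isChain_append, List.isChain_append]
      rw [List.cons_append, ← List.singleton_append, List.isChain_append,
        List.isChain_append] at c1
      obtain ⟨-, ⟨d1, -, d2⟩, d3⟩ := c1
      refine ⟨i2.reverse.2.2.2, ⟨d1, j2.2.2.2, ?_⟩, ?_⟩
      · intro x hx y hy
        rw [j2.1] at hy
        exact d2 x hx y (by simpa using hy)
      · intro x hx y hy
        rw [i2.reverse.2.1] at hx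
        refine d3 x (by simpa using hx) y ?_
        rw [List.head?_append] at hy ⊢
        cases hc : τ.c with
        | nil => exact absurd hc c2
        | cons u c => rw [hc] at hy; simpa using hy
    · intro v hv
      rw [List.mem_append, List.mem_append, List.mem_reverse] at hv
      rcases hv with (hv | hv) | hv
      · exact Finset.disjoint_left.1 hKW (i3 v hv)
      · exact (c3 v hv).2.1
      · exact Finset.disjoint_left.1 hKW (j3 v hv)
    · intro v hv k hk hvk
      have hvT : v ∈ Tm q t := mem_Tm.2 ⟨k, hk, hvk.symm⟩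
      rw [List.mem_append, List.mem_append, List.mem_reverse] at hv
      rcases hv with (hv | hv) | hv
      · exact Or.inl (htinj k hk _ i1 (by rw [← hvk]; exact i4 v hv hvT))
      · exact absurd hvT (c3 v hv).2.2
      · exact Or.inr (htinj k hk _ j1 (by rw [← hvk]; exact j4 v hv hvT))
  have hsn : (src.map ρ).flatten.Nodup := by
    rw [List.nodup_flatten]
    refine ⟨?_, ?_⟩
    · intro l hl
      obtain ⟨v, hv, rfl⟩ := List.mem_map.1 hl
      exact (hι v hv).2.1.2.2.1
    · rw [List.pairwise_map]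
      refine List.Pairwise.imp_of_mem ?_ hnd
      intro v v' hv hv' hne
      exact hdis v hv v' hv' hne
  refine ⟨T.map (fun τ => (ρ τ.a).reverse ++ τ.c ++ ρ τ.b), ⟨?_, ?_⟩, List.length_map _, ?_, ?_,
    ?_⟩
  · rw [List.nodup_flatten]
    refine ⟨?_, ?_⟩
    · intro l hl
      obtain ⟨τ, hτ, rfl⟩ := List.mem_map.1 hl
      exact (hear τ hτ).2.2.2.1.2.2.1
    · rw [List.pairwise_map]
      have p1 : T.Pairwise (fun τ τ' => List.Disjoint [τ.a, τ.b] [τ'.a, τ'.b]) := by
        rw [hsrc, List.nodup_flatMap] at hnd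
        exact hnd.2
      have p2 : T.Pairwise (fun τ τ' => List.Disjoint τ.c τ'.c) := by
        rw [List.nodup_flatten, List.pairwise_map] at hcn
        exact hcn.2
      refine List.Pairwise.imp_of_mem ?_ (p1.and p2)
      intro τ τ' hτ hτ' ⟨hs, hc⟩ v hv hv'
      obtain ⟨ha, hb⟩ := hmem τ hτ
      obtain ⟨ha', hb'⟩ := hmem τ' hτ'
      have key : ∀ x ∈ [τ.a, τ.b], ∀ x' ∈ [τ'.a, τ'.b], v ∈ ρ x → v ∈ ρ x' → False := by
        intro x hx x' hx' h1 h2
        have hxs : x ∈ src := by
          simp only [List.mem_cons, List.not_mem_nil, or_false] at hx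
          rcases hx with rfl | rfl
          · exact ha
          · exact hb
        have hxs' : x' ∈ src := by
          simp only [List.mem_cons, List.not_mem_nil, or_false] at hx'
          rcases hx' with rfl | rfl
          · exact ha'
          · exact hb'
        refine hdis x hxs x' hxs' ?_ h1 h2
        rintro rfl
        exact hs hx hx'
      have hK1 : ∀ x ∈ [τ.a, τ.b], v ∈ ρ x → v ∈ K := by
        intro x hx hvx
        simp only [List.mem_cons, List.not_mem_nil, or_false] at hx
        rcases hx with rfl | rfl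
        · exact (hι _ ha).2.2.1 v hvx
        · exact (hι _ hb).2.2.1 v hvx
      have hK2 : ∀ x ∈ [τ'.a, τ'.b], v ∈ ρ x → v ∈ K := by
        intro x hx hvx
        simp only [List.mem_cons, List.not_mem_nil, or_false] at hx
        rcases hx with rfl | rfl
        · exact (hι _ ha').2.2.1 v hvx
        · exact (hι _ hb').2.2.1 v hvx
      have f1 : (∃ x ∈ [τ.a, τ.b], v ∈ ρ x) ∨ v ∈ τ.c := by
        rw [List.mem_append, List.mem_append, List.mem_reverse] at hv
        rcases hv with (hv | hv) | hv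
        · exact Or.inl ⟨τ.a, by simp, hv⟩
        · exact Or.inr hv
        · exact Or.inl ⟨τ.b, by simp, hv⟩
      have f2 : (∃ x ∈ [τ'.a, τ'.b], v ∈ ρ x) ∨ v ∈ τ'.c := by
        rw [List.mem_append, List.mem_append, List.mem_reverse] at hv'
        rcases hv' with (hv | hv) | hv
        · exact Or.inl ⟨τ'.a, by simp, hv⟩
        · exact Or.inr hv
        · exact Or.inl ⟨τ'.b, by simp, hv⟩
      rcases f1 with ⟨x, hx, h1⟩ | h1 <;> rcases f2 with ⟨x', hx', h2⟩ | h2
      · exact key x hx x' hx' h1 h2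
      · exact hcK τ' hτ' v h2 (hK1 x hx h1)
      · exact hcK τ hτ v h1 (hK2 x' hx' h2)
      · exact hc h1 h2
  · intro l hl
    obtain ⟨τ, hτ, rfl⟩ := List.mem_map.1 hl
    exact ⟨_, _, hear τ hτ⟩
  · intro l hl
    obtain ⟨τ, hτ, rfl⟩ := List.mem_map.1 hl
    refine ⟨τ, hτ, ?_⟩
    obtain ⟨ha, hb⟩ := hmem τ hτ
    have h1 := List.length_pos_of_ne_nil (hι _ ha).2.1.ne_nil
    have h2 := List.length_pos_of_ne_nil (hι _ hb).2.1.ne_nil
    rw [List.length_append, List.length_append, List.length_reverse]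
    omega
  · rw [surg_len, ← hsrc]
    have h1 : (src.map ρ).flatten.length ≤ K.card := by
      rw [← List.toFinset_card_of_nodup hsn]
      refine card_le_card fun v hv => ?_
      rw [List.mem_toFinset, List.mem_flatten] at hv
      obtain ⟨l, hl, hvl⟩ := hv
      obtain ⟨x, hx, rfl⟩ := List.mem_map.1 hl
      exact (hι x hx).2.2.1 v hvl
    omega
  · rw [surg_len]
    have := surg_low ρ T (by
      intro v hv
      rw [← hsrc] at hv
      exact (hι v hv).2.1.ne_nil)
    omega

end Pool.Agent.Helper71.BM
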