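import Pool.Agent.Helper71.BM.Basic

set_option autoImplicit false

/-! # WEB: webs controlled by the haven -/

namespace Pool.Agent.Helper71.BM

open Finset ErdPos

theorem web_conn_mono {V : Type} [DecidableEq V] {G G' : SimpleGraph V} (h : G ≤ G')
    {A : Finset V} (hA : Conn G A) : Conn G' A := by
  refine ⟨hA.1, fun B hB hne hBA => ?_⟩
  obtain ⟨a, ha, b, hb, hab⟩ := hA.2 B hB hne hBA
  exact ⟨a, ha, b, hb, h hab⟩

theorem web_pl_mono {V : Type} {G G' : SimpleGraph V} (h : G ≤ G') {a b : V} {l : List V}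
    (hl : PL G a b l) : PL G' a b l :=
  ⟨hl.1, hl.2.1, hl.2.2.1, hl.2.2.2.imp (fun _ _ hxy => h hxy)⟩

theorem web_mono {V : Type} [DecidableEq V] {G G' : SimpleGraph V} (h : G ≤ G') {hh d : ℕ}
    {R : ℕ → ℕ → List V} {U : ℕ → Finset V} (hW : Web G hh d R U) : Web G' hh d R U :=
  ⟨hW.ne, hW.nodup, fun a ha => (hW.chain a ha).imp (fun _ _ hxy => h hxy), hW.dj, hW.mem,
    fun i hi => web_conn_mono h (hW.conn i hi), hW.udj⟩

theorem web_gx_le {V : Type} (G : SimpleGraph V) (X : Finset V) : Gx G X ≤ G :=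
  fun _ _ h => h.1

/-- adding rows to a connected set -/
theorem web_conn_rows {V : Type} [DecidableEq V] {G : SimpleGraph V} {Z : Finset V}
    (hZ : Conn G Z) (L : ℕ → List V) (I : Finset ℕ)
    (h : ∀ a ∈ I, (L a).IsChain G.Adj ∧ ∃ v ∈ L a, v ∈ Z) :
    Conn G (Z ∪ I.biUnion fun a => (L a).toFinset) := by
  classical
  induction I using Finset.induction_on with
  | empty => simpa using hZ
  | insert a I ha ih =>
    have h1 := ih fun b hb => h b (mem_insert_of_mem hb)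
    obtain ⟨h2, v, hv, hvZ⟩ := h a (mem_insert_self _ _)
    have h3 : Conn G (L a).toFinset := conn_of_chain (List.ne_nil_of_mem hv) h2
    have h4 := h1.union_of_mem h3 (mem_union_left _ hvZ) (List.mem_toFinset.2 hv)
    rw [biUnion_insert, union_comm (L a).toFinset, ← union_assoc]
    exact h4

/-- a connected set with many neighbours of `C` is in the haven -/
theorem web_core (h4 : ST_CTX) {V : Type} [Fintype V] [DecidableEq V] {G : SimpleGraph V}
    {F : Finset V → Prop} {m : ℕ} {C A : Finset V} {H : SimpleGraph V}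
    (hav : Hav G F univ (2 * m)) (hM : Mesh G F m C A H) {S Y : Finset V} (hS : S.card ≤ m)
    (hY : Conn G Y) (hYS : Disjoint Y S) (hc : S.card < (Y ∩ Nb G univ C).card) :
    Y ⊆ bt G F univ S := by
  have h5 := h4 V G F m C A H hav hM S hS
  have h6 : ∃ v ∈ Y ∩ Nb G univ C, v ∈ bt G F univ S := by
    by_contra hcon
    push Not at hcon
    have : Y ∩ Nb G univ C ⊆ Nb G univ C \ bt G F univ S := fun v hv =>
      mem_sdiff.2 ⟨(mem_inter.1 hv).2, hcon v hv⟩
    have := card_le_card this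
    omega
  obtain ⟨v, hv, hvb⟩ := h6
  refine (hav.isBt (by omega : S.card ≤ 2 * m)).subset_of_mem hY ?_ (mem_inter.1 hv).1 hvb
  intro x hx
  exact mem_sdiff.2 ⟨mem_univ _, Finset.disjoint_left.1 hYS hx⟩

theorem web_ctl (h4 : ST_CTX) {V : Type} [Fintype V] [DecidableEq V] {G : SimpleGraph V}
    {F : Finset V → Prop} {m : ℕ} {C A : Finset V} {H : SimpleGraph V}
    (hav : Hav G F univ (2 * m)) (hM : Mesh G F m C A H) {h d N : ℕ} {R : ℕ → ℕ → List V}
    {U : ℕ → Finset V} (hW : Web G h d R U) (hN : N ≤ m)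
    (hx : ∀ a < h, ∃ x ∈ row R d a, x ∈ Nb G univ C) : Ctl G F N (N + 1) h d R := by
  classical
  intro S Z hS hZ hZS ⟨I, hI, hIr⟩
  have h1 := web_conn_rows hZ (row R d) I fun a ha =>
    ⟨hW.chain a (hIr a ha).1, (hIr a ha).2.2⟩
  refine subset_trans subset_union_left (web_core h4 hav hM (hS.trans hN) h1 ?_ ?_)
  · rw [disjoint_union_left]
    refine ⟨hZS, ?_⟩
    rw [Finset.disjoint_left]
    intro v hv hvS
    obtain ⟨a, ha, hva⟩ := mem_biUnion.1 hv
    exact (hIr a ha).2.1 v (List.mem_toFinset.1 hva) hvS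
  · have hx' : ∀ a, ∃ x, a ∈ I → x ∈ row R d a ∧ x ∈ Nb G univ C := fun a => by
      by_cases ha : a ∈ I
      · obtain ⟨x, hx1, hx2⟩ := hx a (hIr a ha).1
        exact ⟨x, fun _ => ⟨hx1, hx2⟩⟩
      · by_cases hV : Nonempty V
        · exact ⟨hV.some, fun h => absurd h ha⟩
        · obtain ⟨z, -⟩ := hZ.1
          exact absurd ⟨z⟩ hV
    choose x hx' using hx'
    have hinj : ∀ a ∈ I, ∀ b ∈ I, x a = x b → a = b := by
      intro a ha b hb hab
      by_contra hne
      exact hW.dj a (hIr a ha).1 b (hIr b hb).1 hne (hx' a ha).1 (hab ▸ (hx' b hb).1)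
    have h2 : I.image x ⊆ (Z ∪ I.biUnion fun a => (row R d a).toFinset) ∩ Nb G univ C := by
      intro v hv
      obtain ⟨a, ha, rfl⟩ := mem_image.1 hv
      exact mem_inter.2 ⟨mem_union_right _ (mem_biUnion.2 ⟨a, ha, List.mem_toFinset.2
        (hx' a ha).1⟩), (hx' a ha).2⟩
    have h3 := card_le_card h2
    rw [card_image_of_injOn fun a ha b hb => hinj a ha b hb, hI] at h3
    omega

theorem web_ctl2 (h4 : ST_CTX) {V : Type} [Fintype V] [DecidableEq V] {G : SimpleGraph V}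
    {F : Finset V → Prop} {m : ℕ} {C A : Finset V} {H : SimpleGraph V}
    (hav : Hav G F univ (2 * m)) (hM : Mesh G F m C A H) {h d N : ℕ} {R : ℕ → ℕ → List V}
    {U : ℕ → Finset V} (hd : 1 ≤ d) (hW : Web G h d R U) (hN : N ≤ m) (B : ℕ → Finset V)
    (hBc : ∀ i < h * d, Conn G (B i) ∧ N < (B i ∩ Nb G univ C).card)
    (hBd : ∀ i < h * d, ∀ j < h * d, i ≠ j → Disjoint (B i) (B j))
    (hx : ∀ a < h, ∀ i < d, ∃ x ∈ row R d a, x ∈ B (a * d + i)) : Ctl G F N (N + 1) h d R := by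
  classical
  intro S Z hS hZ hZS ⟨I, hI, hIr⟩
  have h1 := web_conn_rows hZ (row R d) I fun a ha =>
    ⟨hW.chain a (hIr a ha).1, (hIr a ha).2.2⟩
  have hlt : ∀ a ∈ I, a * d < h * d := fun a ha =>
    Nat.mul_lt_mul_of_pos_right (hIr a ha).1 (by omega)
  have hex : ∃ a ∈ I, Disjoint (B (a * d)) S := by
    by_contra hcon
    push Not at hcon
    have : ∀ a, ∃ x : V, a ∈ I → x ∈ B (a * d) ∧ x ∈ S := fun a => by
      by_cases ha : a ∈ I
      · obtain ⟨x, hx1, hx2⟩ := Finset.not_disjoint_iff.1 (hcon a ha)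
        exact ⟨x, fun _ => ⟨hx1, hx2⟩⟩
      · obtain ⟨z, -⟩ := hZ.1
        exact ⟨z, fun h => absurd h ha⟩
    choose x hx' using this
    have hinj : ∀ a ∈ I, ∀ b ∈ I, x a = x b → a = b := by
      intro a ha b hb hab
      by_contra hne
      have hne' : a * d ≠ b * d := fun h => hne (Nat.eq_of_mul_eq_mul_right (by omega) h)
      exact Finset.disjoint_left.1 (hBd _ (hlt a ha) _ (hlt b hb) hne') (hx' a ha).1
        (hab ▸ (hx' b hb).1)
    have h2 : I.image x ⊆ S := by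
      intro v hv
      obtain ⟨a, ha, rfl⟩ := mem_image.1 hv
      exact (hx' a ha).2
    have h3 := card_le_card h2
    rw [card_image_of_injOn fun a ha b hb => hinj a ha b hb, hI] at h3
    omega
  obtain ⟨a, ha, haS⟩ := hex
  obtain ⟨hBa, hBn⟩ := hBc _ (hlt a ha)
  obtain ⟨x, hx1, hx2⟩ := hx a (hIr a ha).1 0 (by omega)
  rw [add_zero] at hx2
  have h2 := h1.union_of_mem hBa (mem_union_right _ (mem_biUnion.2 ⟨a, ha,
    List.mem_toFinset.2 hx1⟩)) hx2
  refine subset_trans (subset_trans subset_union_left subset_union_left)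
    (web_core h4 hav hM (hS.trans hN) h2 ?_ ?_)
  · rw [disjoint_union_left, disjoint_union_left]
    refine ⟨⟨hZS, ?_⟩, haS⟩
    rw [Finset.disjoint_left]
    intro v hv hvS
    obtain ⟨a, ha, hva⟩ := mem_biUnion.1 hv
    exact (hIr a ha).2.1 v (List.mem_toFinset.1 hva) hvS
  · refine (hS.trans_lt hBn).trans_le (card_le_card ?_)
    exact inter_subset_inter_right subset_union_right

theorem st_WEB (h1 : ST_MESH) (h2 : ST_SPLIT) (h3 : ST_EXTL) (h4 : ST_CTX) (h5 : ST_DICH)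
    (h6 : ST_KWEB) : ST_WEB := by
  intro h d N hh hd
  obtain ⟨n, hn⟩ := h5 (h * d) h d
  have hp : 1 ≤ h * d := Nat.mul_pos hh hd
  set n1 := max n (N + 1) with hn1
  have hn1n : n ≤ n1 := le_max_left _ _
  have hn1N : N + 1 ≤ n1 := le_max_right _ _
  refine ⟨2 * (2 * n1 * (h * d)), ?_⟩
  intro V _ _ G F hav
  classical
  set m := 2 * n1 * (h * d) with hm
  have hm1 : n1 ≤ m := by
    rw [hm]
    nlinarith
  obtain ⟨C, A, H, hM⟩ := h1 V G F m (by omega) hav
  obtain ⟨B, hB, hBd⟩ := h2 V H A (Nb G univ C) n1 (h * d) (by omega) hM.conn hM.sub hM.deg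
    (by rw [hM.card])
  have hXex : ∀ i, ∃ X : Finset V, i < h * d → X ⊆ B i ∩ Nb G univ C ∧ X.card = n1 := fun i => by
    by_cases hi : i < h * d
    · obtain ⟨X, hX1, hX2⟩ := exists_subset_card_eq (hB i hi).2.2
      exact ⟨X, fun _ => ⟨hX1, hX2⟩⟩
    · exact ⟨∅, fun h => absurd h hi⟩
  choose X hX using hXex
  have hXN : ∀ i < h * d, ∀ x ∈ X i, x ∈ B i ∧ x ∈ Nb G univ C := fun i hi x hx =>
    mem_inter.1 ((hX i hi).1 hx)
  have hXd : ∀ i < h * d, ∀ j < h * d, i ≠ j → Disjoint (X i) (X j) := by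
    intro i hi j hj hij
    rw [Finset.disjoint_left]
    intro x hx hx'
    exact Finset.disjoint_left.1 (hBd i hi j hj hij) (hXN i hi x hx).1 (hXN j hj x hx').1
  have hBC : ∀ i < h * d, Disjoint (B i) C := fun i hi =>
    Disjoint.mono_left (hB i hi).1 hM.dj
  have hXC : ∀ i < h * d, Disjoint (X i) C := fun i hi =>
    Disjoint.mono_left (fun x hx => (hXN i hi x hx).1) (hBC i hi)
  have key := hn V (Gx G (Nb G univ C)) C X hd hXC hXd
    (by
      intro i hi j hj u hu v hv huv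
      exact huv.2 ⟨(hXN i hi u hu).2, (hXN j hj v hv).2⟩)
    (by
      intro i j hij hj
      have hi := hij.trans hj
      obtain ⟨P, hP, hPn⟩ := h3 V G F m C A H hav hM (X i) (X j) n1
        (fun x hx => (hXN i hi x hx).2) (fun x hx => (hXN j hj x hx).2) (hXd i hi j hj hij.ne)
        (hX i hi).2 (hX j hj).2
      refine ⟨P.take n, hP.of_subset (hP.nodup.sublist (List.take_sublist _ _))
        (fun l hl => List.mem_of_mem_take hl), ?_⟩
      rw [List.length_take, hPn]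
      omega)
  rcases key with ⟨P, hP, hPd⟩ | ⟨i, hi, R, U, hW, hr⟩
  · obtain ⟨R, U, hW, hr⟩ := h6 V G h d C B P hh hd
      (fun i hi => ⟨web_conn_mono hM.le (hB i hi).2.1, hBC i hi⟩) hBd
      (by
        intro i j hij hj
        obtain ⟨a, ha, b, hb, hl, hv⟩ := hP i j hij hj
        exact ⟨a, (hXN i (hij.trans hj) a ha).1, b, (hXN j hj b hb).1,
          web_pl_mono (web_gx_le _ _) hl, hv⟩)
      hPd
    refine ⟨R, U, hW, web_ctl2 h4 hav hM hd hW (by omega) B (fun i hi =>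
      ⟨web_conn_mono hM.le (hB i hi).2.1, ?_⟩) hBd hr⟩
    have := (hB i hi).2.2
    omega
  · refine ⟨R, U, web_mono (web_gx_le _ _) hW, web_ctl h4 hav hM
      (web_mono (web_gx_le _ _) hW) (by omega) fun a ha => ?_⟩
    obtain ⟨x, hx, hxX⟩ := hr a ha
    exact ⟨x, hx, (hXN i hi x hxX).2⟩

end Pool.Agent.Helper71.BM
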